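import Pool.Agent.Q64.FS.Cnt
import Pool.Agent.Q64.FS.Emb

/-!
# Flat sequences of integral points over countable fields

There is one positive function `ε σ` for every embedding `σ` of a field in a locally compact normed
field of characteristic zero (`ℝ`, `ℂ`, finite extensions of the `p`-adic numbers), such that for all
countable fields `K` of characteristic zero and all closed subschemes `U` and `U'` of an affine space
over `K`, with `U` given by polynomials of degree at most `D`, the following are equivalent:

* all nonconstant polynomial curves in `U` over all extensions of `K` lie in `U'`;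
* the same over the finite extensions of `K`;
* for all countable extensions `L` of `K` and all `σ : L → F`, every sequence of points of `U(L)`
  off `U'`, whose differences have infinitely many approximate gaps `(M, D M)` for `σ` with bound
  `ε σ`, is constant;
* for all finite extensions `L` of `K`, all `σ : L → F` and all finitely generated subrings `R` of
  `L`, every sequence of points of `U(R)` off `U'`, whose `i`-th differences at `0` are at most
  `ε σ i` for large `i`, is constant;
* for all finite extensions `L` of `K` and all finitely generated subrings `R` of `L`, every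
  polynomial sequence of points of `U(R)` off `U'` is constant.
-/

set_option autoImplicit false

namespace Pool.Agent.Results.MP_26d9ad_nt.FlatIntegralPoints

open MvPolynomial Pool.Agent.Q64.FS

variable {K : Type} [Field K] {n : ℕ}

/-- The point `x` with coordinates in the extension `L` of `K` is a zero of all polynomials in the
set `V`. -/
def IsZero (V : Set (MvPolynomial (Fin n) K)) {L : Type} [Field L] [Algebra K L]
    (x : Fin n → L) : Prop :=
  ∀ P ∈ V, aeval x P = 0

/-- All nonconstant polynomial curves over extensions `E` of `K` in the zero set `U` of `V` lie in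
the zero set `U'` of `V'`. -/
def CurvesIn (V V' : Set (MvPolynomial (Fin n) K)) : Prop :=
  ∀ (E : Type) [Field E] [Algebra K E] (T : Fin n → Polynomial E), (∃ j, (T j).natDegree ≠ 0) →
    (∀ P ∈ V, aeval T P = 0) → ∀ P ∈ V', aeval T P = 0

/-- The same for finite extensions. -/
def FinCurvesIn (V V' : Set (MvPolynomial (Fin n) K)) : Prop :=
  ∀ (E : Type) [Field E] [Algebra K E] [FiniteDimensional K E] (T : Fin n → Polynomial E),
    (∃ j, (T j).natDegree ≠ 0) → (∀ P ∈ V, aeval T P = 0) → ∀ P ∈ V', aeval T P = 0

/-- For all countable extensions `L` of `K` and all embeddings `σ` of `L` in locally compact normed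
fields of characteristic zero, all sequences of points of `U(L)` off `U'` with infinitely many
approximate gaps for `σ` are constant. -/
def GapConst (ε : ∀ {L F : Type} [Field L] [NormedField F], (L →+* F) → ℕ → ℝ) (D : ℕ)
    (V V' : Set (MvPolynomial (Fin n) K)) : Prop :=
  ∀ (L : Type) [Field L] [Countable L] [Algebra K L] (F : Type) [NormedField F] [ProperSpace F]
    [CharZero F] (σ : L →+* F) (x : ℕ → Fin n → L),
    (∀ m, IsZero V (x m) ∧ ¬ IsZero V' (x m)) → GapAt D σ (ε σ) x → ∀ m, x m = x 0

/-- For all finite extensions `L` of `K`, all embeddings `σ` of `L` in locally compact normed fields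
of characteristic zero and all finitely generated subrings `R` of `L`, all sequences of points of
`U(R)` off `U'` which are flat for `σ` are constant. -/
def FlatConst (ε : ∀ {L F : Type} [Field L] [NormedField F], (L →+* F) → ℕ → ℝ)
    (V V' : Set (MvPolynomial (Fin n) K)) : Prop :=
  ∀ (L : Type) [Field L] [Algebra K L] [FiniteDimensional K L] (F : Type) [NormedField F]
    [ProperSpace F] [CharZero F] (σ : L →+* F) (S : Finset L) (x : ℕ → Fin n → L),
    (∀ m j, x m j ∈ Subring.closure (S : Set L)) → (∀ m, IsZero V (x m) ∧ ¬ IsZero V' (x m)) →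
    FlatAt σ (ε σ) x → ∀ m, x m = x 0

/-- The same for polynomial sequences. -/
def PolyConst (V V' : Set (MvPolynomial (Fin n) K)) : Prop :=
  ∀ (L : Type) [Field L] [Algebra K L] [FiniteDimensional K L] (S : Finset L)
    (x : ℕ → Fin n → L), (∀ m j, x m j ∈ Subring.closure (S : Set L)) →
    (∀ m, IsZero V (x m) ∧ ¬ IsZero V' (x m)) →
    (∀ j, ∃ P : Polynomial L, ∀ m : ℕ, x m j = P.eval (m : L)) → ∀ m, x m = x 0

theorem aeval_curve {E : Type} [Field E] [Algebra K E] (T : Fin n → Polynomial E)
    (P : MvPolynomial (Fin n) K) (t : E) :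
    (aeval T P : Polynomial E).eval t = aeval (fun j => (T j).eval t) P := by
  have h1 := MvPolynomial.comp_aeval_apply (f := T)
    ((Polynomial.aeval t : Polynomial E →ₐ[E] E).restrictScalars K) P
  simp only [AlgHom.restrictScalars_apply, Polynomial.coe_aeval_eq_eval] at h1
  exact h1

theorem gap_of_curves {ε : ∀ {L F : Type} [Field L] [NormedField F], (L →+* F) → ℕ → ℝ}
    (hε : ∀ {L F : Type} [Field L] [Countable L] [NormedField F] [ProperSpace F] [CharZero F]
      (σ : L →+* F), ∀ (n : ℕ) (x : ℕ → Fin n → L) (D : ℕ) (V : Set (MvPolynomial (Fin n) L)),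
      1 ≤ D → (∀ P ∈ V, P.totalDegree ≤ D) → (∀ P ∈ V, ∀ m, eval (x m) P = 0) →
      GapAt D σ (ε σ) x → ∀ r, CurveThrough V x r)
    {D : ℕ} (hD : 1 ≤ D) {V V' : Set (MvPolynomial (Fin n) K)}
    (hV : ∀ P ∈ V, P.totalDegree ≤ D) (h : CurvesIn V V') : GapConst ε D V V' := by
  intro L _ _ _ F _ _ _ σ x hx hgap m
  by_contra hne
  obtain ⟨L', i1, i2, i3, T, h1, h2⟩ := hε σ n x D (map (algebraMap K L) '' V) hD (by
      rintro _ ⟨P, hP, rfl⟩
      exact (Finset.sup_mono (support_map_subset _ _)).trans (hV P hP)) (by
      rintro _ ⟨P, hP, rfl⟩ m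
      rw [eval_map]
      exact (hx m).1 P hP) hgap m
  let _ : Algebra K L' := ((algebraMap L L').comp (algebraMap K L)).toAlgebra
  have hmap : ∀ P : MvPolynomial (Fin n) K,
      (aeval T (map (algebraMap K L) P) : Polynomial L') = aeval T P := by
    intro P
    rw [aeval_def, eval₂_map]
    rfl
  have h3 := h L' T (by
    by_contra hno
    push Not at hno
    apply hne
    funext j
    apply (algebraMap L L').injective
    rw [← h1 m le_rfl j, ← h1 0 (Nat.zero_le _) j]
    obtain ⟨c, hc⟩ := Polynomial.natDegree_eq_zero.1 (hno j)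
    rw [← hc, Polynomial.eval_C, Polynomial.eval_C]) (fun P hP => by
      rw [← hmap]
      exact h2 _ ⟨P, hP, rfl⟩)
  apply (hx 0).2
  intro P hP
  have h4 := congrArg (Polynomial.eval ((0 : ℕ) : L')) (h3 P hP)
  rw [aeval_curve, Polynomial.eval_zero] at h4
  have h5 : (fun j => (T j).eval ((0 : ℕ) : L')) = fun j => algebraMap L L' (x 0 j) :=
    funext fun j => h1 0 (Nat.zero_le _) j
  rw [h5] at h4
  apply (algebraMap L L').injective
  rw [map_zero, ← h4, aeval_def, aeval_def]
  exact eval₂_comp_left (algebraMap L L') (algebraMap K L) (x 0) P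

/-- a finitely generated subring which contains the values of a polynomial -/
theorem exists_ring {L : Type} [Field L] (T : Fin n → Polynomial L) :
    ∃ S : Finset L, ∀ (m : ℕ) (j : Fin n), (T j).eval (m : L) ∈ Subring.closure (S : Set L) := by
  classical
  refine ⟨Finset.univ.biUnion fun j => (T j).support.image (T j).coeff, fun m j => ?_⟩
  rw [Polynomial.eval_eq_sum, Polynomial.sum]
  refine Subring.sum_mem _ fun i hi => Subring.mul_mem _ (Subring.subset_closure ?_)
    (Subring.pow_mem _ (natCast_mem _ m) _)
  exact Finset.mem_coe.2 (Finset.mem_biUnion.2 ⟨j, Finset.mem_univ j,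
    Finset.mem_image_of_mem _ hi⟩)

theorem fin_of_poly [CharZero K] {V V' : Set (MvPolynomial (Fin n) K)} (h : PolyConst V V') :
    FinCurvesIn V V' := by
  intro E _ _ _ T hT hTV P hP
  by_contra hne
  have hchar : CharZero E := charZero_of_injective_algebraMap (algebraMap K E).injective
  obtain ⟨s, hs⟩ : ∃ s : ℕ, ∀ m : ℕ, s ≤ m → (aeval T P : Polynomial E).eval (m : E) ≠ 0 := by
    have h2 : {z : E | (aeval T P : Polynomial E).IsRoot z}.Finite :=
      Polynomial.finite_setOfPred_isRoot hne
    have h3 : {m : ℕ | (aeval T P : Polynomial E).eval (m : E) = 0}.Finite :=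
      h2.preimage (f := fun m : ℕ => (m : E)) Nat.cast_injective.injOn
    obtain ⟨s, hs⟩ := h3.bddAbove
    refine ⟨s + 1, fun m hm h0 => ?_⟩
    have := hs h0
    omega
  let T' : Fin n → Polynomial E := fun j => (T j).comp (Polynomial.X + Polynomial.C (s : E))
  have hT' : ∀ (m : ℕ) (j : Fin n), (T' j).eval (m : E) = (T j).eval ((s + m : ℕ) : E) := by
    intro m j
    simp only [T', Polynomial.eval_comp, Polynomial.eval_add, Polynomial.eval_X,
      Polynomial.eval_C]
    congr 1
    push_cast
    ring
  obtain ⟨S, hS⟩ := exists_ring T'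
  have h1 := h E S (fun m j => (T' j).eval (m : E)) (fun m j => hS m j) (fun m => ?_)
    (fun j => ⟨T' j, fun m => rfl⟩)
  · obtain ⟨j, hj⟩ := hT
    apply hj
    have h4 : T j = Polynomial.C ((T' j).eval ((0 : ℕ) : E)) := by
      apply Polynomial.eq_of_infinite_eval_eq
      refine Set.Infinite.mono (s := Set.range fun m : ℕ => ((s + m : ℕ) : E)) ?_
        (Set.infinite_range_of_injective fun a b hab => by
          have : s + a = s + b := Nat.cast_injective hab
          omega)
      rintro _ ⟨m, rfl⟩
      change Polynomial.eval _ _ = Polynomial.eval _ _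
      rw [Polynomial.eval_C, ← hT' m j]
      exact congrFun (h1 m) j
    rw [h4, Polynomial.natDegree_C]
  · have h5 : (fun j => (T' j).eval (m : E)) = fun j => (T j).eval ((s + m : ℕ) : E) :=
      funext fun j => hT' m j
    rw [h5]
    refine ⟨fun Q hQ => ?_, fun h0 => ?_⟩
    · rw [← aeval_curve, hTV Q hQ, Polynomial.eval_zero]
    · apply hs (s + m) (by omega)
      rw [aeval_curve]
      exact h0 P hP

theorem curves_of_fin {V V' : Set (MvPolynomial (Fin n) K)} (h : FinCurvesIn V V') :
    CurvesIn V V' := by
  classical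
  intro E _ _ T hT hTV P hP
  by_contra hne
  -- a second condition: the curve is not constant
  obtain ⟨j, hj⟩ := hT
  obtain ⟨A, i1, i2, i3, hft, ι, hι, T1, hT1⟩ :
      ∃ (A : Type) (_ : CommRing A) (_ : IsDomain A) (_ : Algebra K A) (_ : Algebra.FiniteType K A)
      (ι : A →ₐ[K] E) (_ : Function.Injective ι) (T' : Fin n → Polynomial A),
      ∀ j, (T' j).map (ι : A →+* E) = T j := by
    let S : Finset E := Finset.univ.biUnion fun j : Fin n => (T j).support.image (T j).coeff
    let R : Subalgebra K E := Algebra.adjoin K (S : Set E)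
    have hR : Algebra.FiniteType K R := by
      rw [← Subalgebra.fg_iff_finiteType]
      exact Subalgebra.fg_adjoin_finset S
    have hlift : ∀ j, ∃ P : Polynomial R, P.map (R.val : R →+* E) = T j := by
      intro j
      have h2 : T j ∈ Polynomial.lifts (R.val : R →+* E) := by
        rw [Polynomial.lifts_iff_coeff_lifts]
        intro i
        by_cases h3 : (T j).coeff i = 0
        · exact ⟨0, by rw [h3, map_zero]⟩
        · refine ⟨⟨(T j).coeff i, Algebra.subset_adjoin ?_⟩, rfl⟩
          exact Finset.mem_coe.2 (Finset.mem_biUnion.2 ⟨j, Finset.mem_univ j,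
            Finset.mem_image_of_mem _ (Polynomial.mem_support_iff.2 h3)⟩)
      exact (Polynomial.mem_lifts _).1 h2
    choose T' hT' using hlift
    exact ⟨R, inferInstance, inferInstance, inferInstance, hR, R.val, Subtype.val_injective, T',
      hT'⟩
  have hι' : Function.Injective (ι : A →+* E) := hι
  have hmap : ∀ {B : Type} [CommRing B] [Algebra K B] (f : A →ₐ[K] B)
      (Q : MvPolynomial (Fin n) K), (aeval T1 Q : Polynomial A).map (f : A →+* B) =
      aeval (fun j => (T1 j).map (f : A →+* B)) Q := by
    intro B _ _ f Q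
    exact MvPolynomial.comp_aeval_apply (f := T1) (Polynomial.mapAlgHom f) Q
  have hmapι : ∀ Q : MvPolynomial (Fin n) K, (aeval T1 Q : Polynomial A).map (ι : A →+* E) =
      aeval T Q := by
    intro Q
    rw [hmap]
    congr 2
    funext j
    exact hT1 j
  have hP1 : (aeval T1 P : Polynomial A) ≠ 0 := by
    intro h0
    apply hne
    rw [← hmapι, h0, Polynomial.map_zero]
  obtain ⟨i, hi⟩ : ∃ i, (aeval T1 P : Polynomial A).coeff i ≠ 0 := by
    by_contra hno
    push Not at hno
    exact hP1 (Polynomial.ext fun i => by rw [hno i, Polynomial.coeff_zero])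
  have hj1 : (T1 j).coeff (T j).natDegree ≠ 0 := by
    intro h0
    have h2 : (T j).coeff (T j).natDegree = 0 := by
      conv_lhs => rw [← hT1 j]
      rw [Polynomial.coeff_map]
      rw [hT1 j, h0]
      exact map_zero _
    rw [Polynomial.coeff_natDegree, Polynomial.leadingCoeff_eq_zero] at h2
    rw [h2] at hj
    exact hj Polynomial.natDegree_zero
  obtain ⟨k', j1, j2, j3, χ, hχ⟩ := spec_fin hft (mul_ne_zero hi hj1)
  rw [map_mul] at hχ
  have h3 := h k' (fun j => (T1 j).map (χ : A →+* k')) ⟨j, fun h0 => ?_⟩ (fun Q hQ => ?_) P hP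
  · rw [← hmap] at h3
    have h4 := congrArg (fun Q => Polynomial.coeff Q i) h3
    simp only [Polynomial.coeff_map, Polynomial.coeff_zero] at h4
    exact left_ne_zero_of_mul hχ h4
  · have h4 : ((T1 j).map (χ : A →+* k')).coeff (T j).natDegree = 0 :=
      Polynomial.coeff_eq_zero_of_natDegree_lt (by rw [h0]; omega)
    rw [Polynomial.coeff_map] at h4
    exact right_ne_zero_of_mul hχ h4
  · rw [← hmap]
    have h5 : (aeval T1 Q : Polynomial A) = 0 := by
      apply Polynomial.map_injective _ hι'
      rw [hmapι, hTV Q hQ, Polynomial.map_zero]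
    rw [h5, Polynomial.map_zero]

theorem result : ∃ ε : ∀ {L F : Type} [Field L] [NormedField F], (L →+* F) → ℕ → ℝ,
    (∀ (L F : Type) [Field L] [NormedField F] (σ : L →+* F) (s : ℕ), 0 < ε σ s) ∧
    ∀ (K : Type) [Field K] [CharZero K] [Countable K] (n D : ℕ)
      (V V' : Set (MvPolynomial (Fin n) K)), 1 ≤ D → (∀ P ∈ V, P.totalDegree ≤ D) →
      [CurvesIn V V', FinCurvesIn V V', GapConst ε D V V', FlatConst ε V V',
        PolyConst V V'].TFAE := by
  classical
  have key : ∀ {L F : Type} [Field L] [NormedField F] (σ : L →+* F), ∃ ε : ℕ → ℝ,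
      (∀ s, 0 < ε s) ∧ (∀ s, ε s ≤ 1) ∧ Antitone ε ∧
      ((Countable L ∧ ProperSpace F ∧ CharZero F) →
      ∀ (n : ℕ) (x : ℕ → Fin n → L) (D : ℕ) (V : Set (MvPolynomial (Fin n) L)),
        1 ≤ D → (∀ P ∈ V, P.totalDegree ≤ D) → (∀ P ∈ V, ∀ m, eval (x m) P = 0) →
        GapAt D σ ε x → ∀ r, CurveThrough V x r) := by
    intro L F _ _ σ
    by_cases h : Countable L ∧ ProperSpace F ∧ CharZero F
    · obtain ⟨i1, i2, i3⟩ := h
      obtain ⟨ε, h1, h2, h3, h4⟩ := local_seq σ
      exact ⟨ε, h1, h2, h3, fun _ => h4⟩
    · exact ⟨fun _ => 1, fun _ => one_pos, fun _ => le_rfl, antitone_const, fun h' => absurd h' h⟩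
  choose ε h1 h2 h3 h4 using @key
  refine ⟨fun {L F} _ _ σ => ε σ, fun L F _ _ σ s => h1 σ s,
    fun K _ _ _ n D V V' hD hV => ?_⟩
  tfae_have 1 → 3 := by
    intro h
    refine gap_of_curves (ε := fun {L F} _ _ σ => ε σ) ?_ hD hV h
    intro L F _ hL _ hF hc σ
    exact h4 σ ⟨hL, hF, hc⟩
  tfae_have 3 → 4 := by
    intro h L _ _ _ F _ hF hc σ S x _ hx hfl
    have hL : Countable L := by
      have b := Module.finBasis K L
      exact b.equivFun.toEquiv.countable_iff.2 inferInstance
    exact h L F σ x hx (hfl.gap (h3 σ) (h2 σ) D)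
  tfae_have 4 → 5 := by
    intro h L _ _ _ S x hS hx hpoly
    have hL : Countable L := by
      have b := Module.finBasis K L
      exact b.equivFun.toEquiv.countable_iff.2 inferInstance
    have hchar : CharZero L := charZero_of_injective_algebraMap (algebraMap K L).injective
    obtain ⟨σ⟩ := exists_emb_countable L
    exact h L ℂ σ S x hS hx (flatAt_poly σ (h1 σ) hpoly)
  tfae_have 5 → 2 := fin_of_poly
  tfae_have 2 → 1 := curves_of_fin
  tfae_finish

end Pool.Agent.Results.MP_26d9ad_nt.FlatIntegralPoints
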