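import Mathlib
import Pool.Agent.Q51.HG.PairsHt
import Pool.Agent.Q51.HG.SmoothCI

set_option autoImplicit false

/-!
# Integral points on general pairs over number fields: sums of `r` elements of a group of finite rank

Let `F 1, …, F q` be forms of degrees `d 1, …, d q > 0` in `n + 1` variables over a number field `K`,
and let `C` be a proper subset of `{1, …, q}`. Let `V` be the complete intersection `F c = 0`, `c ∈ C`,
in projective `n`-space (all of it, if `C` is empty), `D` the union of the hypersurfaces `F b = 0`,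
`b ∉ C`, and `U = V ∖ D`. Suppose that `2 n + 1 ≤ ∑ d i + |C|` (for `V` the projective space: the
divisor `D` has degree at least `2 n + 1`). For every `r` there is a nonzero polynomial `h` with
integral coefficients in the coefficients of the forms, such that for ALL number fields `K` and all
forms over `K` with `h (F) ≠ 0` (that is, for 100 percent of the pairs, over every number field):

* the hypersurfaces `F i = 0` are smooth and meet transversally; in particular `V` and `U` are smooth,
  and `D` has normal crossings on `V`;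
* (height inequality) for every finitely generated group `Γ` of algebraic numbers there is `B` such that
  all points `x = ∑ u j V j` of `U`, `r` terms, where the `u j` and the `F b (x)`, `b ∉ C`, have a power
  in `Γ` and the `V j` are ANY vectors of algebraic numbers, satisfy `h(x) ≤ B (1 + h(1 : V))`. In
  particular over every number field there are only finitely many such points with bounded `h(1 : V)`;
* (Mordell-Lang and Bogomolov property) for every finitely generated group `Γ` of algebraic numbers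
  there are `A` and `e` such that for all vectors `V j` of algebraic numbers there are at most
  `A (1 + h(1 : V)) ^ e` points `x` of `U` of the form `∑ u j s j V j`, where the `u j` and the `F b (x)`
  have a power in `Γ` and the height of `(1 : s)` is less than `ε`; here `ε > 0` depends only on `r`
  and the `d i`.

If `Γ` is the group of the `S`-units of a number field `L ⊇ K` and `F b (x) ∈ Γ`, then `x` is an
`S`-integral point of `U`.
-/

namespace Pool.Agent.Results.MP_26d9ad_nt.GeneralPairs

open MvPolynomial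
open scoped LinearAlgebra.Projectivization
open Pool.Agent.Helper259.AbsHt

/-- The algebraic numbers. -/
abbrev Qbar : Type := AlgebraicClosure ℚ

/-- The indices of the coefficients of `q` forms of degrees `d i` in `n + 1` variables. -/
abbrev Index (n : ℕ) {q : ℕ} (d : Fin q → ℕ) : Type :=
  (i : Fin q) × {α : Fin (n + 1) →₀ ℕ // α.degree = d i}

/-- The value of the polynomial `h` at the coefficients of the forms `F i`. -/
noncomputable def valueAt {n q : ℕ} {d : Fin q → ℕ} {K : Type} [Field K]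
    (h : MvPolynomial (Index n d) ℤ) (F : Fin q → MvPolynomial (Fin (n + 1)) K) : K :=
  aeval (fun x : Index n d => coeff x.2.1 (F x.1)) h

/-- The hypersurfaces `F i = 0` are smooth and meet transversally: in every point of projective space
(over any field `Ω ⊇ K`) the gradients of those `F i` that vanish there are linearly independent. -/
def Transversal {n q : ℕ} {K : Type} [Field K] (F : Fin q → MvPolynomial (Fin (n + 1)) K) : Prop :=
  ∀ (Ω : Type) [Field Ω] [Algebra K Ω] (x : Fin (n + 1) → Ω), x ≠ 0 →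
    LinearIndependent Ω (fun i : {i // aeval x (F i) = 0} => fun k => aeval x (pderiv k (F i.1)))

/-- The height `h(1 : V)` of a sequence of vectors. -/
noncomputable def hV {n r : ℕ} (V : Fin r → Fin (n + 1) → Qbar) : ℝ :=
  absLogHeight (fun o : Option (Fin r × Fin (n + 1)) => o.elim (1 : Qbar) (fun p => V p.1 p.2))

/-- The height `h(1 : s)`. -/
noncomputable def hs {r : ℕ} (s : Fin r → Qbar) : ℝ :=
  absLogHeight (fun o : Option (Fin r) => o.elim (1 : Qbar) s)

/-- The point `x` is on `V`, and the `F b (x)`, `b ∉ C`, have a power in `Γ`. -/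
def PairPoint {n q : ℕ} (C : Finset (Fin q)) {K : Type} [Field K] [Algebra K Qbar]
    (F : Fin q → MvPolynomial (Fin (n + 1)) K) (Γ : Subgroup Qbarˣ) (x : Fin (n + 1) → Qbar) :
    Prop :=
  (∀ c ∈ C, aeval x (F c) = 0) ∧
    ∀ b, b ∉ C → ∃ w : Qbarˣ, (∃ m : ℕ, 0 < m ∧ w ^ m ∈ Γ) ∧ aeval x (F b) = (w : Qbar)

/-- The height inequality. -/
def HeightInequality (r : ℕ) {n q : ℕ} (C : Finset (Fin q)) {K : Type} [Field K]
    (F : Fin q → MvPolynomial (Fin (n + 1)) K) : Prop :=
  ∀ [Algebra K Qbar] (Γ : Subgroup Qbarˣ), Γ.FG → ∃ B : ℝ,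
    ∀ (u : Fin r → Qbarˣ) (V : Fin r → Fin (n + 1) → Qbar),
      (∀ j, ∃ m : ℕ, 0 < m ∧ u j ^ m ∈ Γ) →
      PairPoint C F Γ (fun i => ∑ j, (u j : Qbar) * V j i) →
      absLogHeight (fun i => ∑ j, (u j : Qbar) * V j i) ≤ B * (1 + hV V)

/-- The points of `U` of the form `∑ u j s j V j`, with `u j` and the values of the `F b` in the
division hull of `Γ` and `h(1 : s) < ε`. -/
def nearPoints {n q r : ℕ} (C : Finset (Fin q)) {K : Type} [Field K] [Algebra K Qbar]
    (F : Fin q → MvPolynomial (Fin (n + 1)) K) (Γ : Subgroup Qbarˣ) (ε : ℝ)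
    (V : Fin r → Fin (n + 1) → Qbar) : Set (ℙ Qbar (Fin (n + 1) → Qbar)) :=
  {P | ∃ (u : Fin r → Qbarˣ) (s : Fin r → Qbar) (h : (fun i => ∑ j, (u j : Qbar) * s j * V j i) ≠ 0),
    (∀ j, ∃ m : ℕ, 0 < m ∧ u j ^ m ∈ Γ) ∧ hs s < ε ∧ P = Projectivization.mk Qbar _ h ∧
      PairPoint C F Γ (fun i => ∑ j, (u j : Qbar) * s j * V j i)}

/-- These points are finite in number, with a polynomial bound. -/
def NearFinite (r : ℕ) (ε : ℝ) {n q : ℕ} (C : Finset (Fin q)) {K : Type} [Field K]
    (F : Fin q → MvPolynomial (Fin (n + 1)) K) : Prop :=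
  ∀ [Algebra K Qbar] (Γ : Subgroup Qbarˣ), Γ.FG → ∃ (A : ℝ) (e : ℕ),
    ∀ V : Fin r → Fin (n + 1) → Qbar, (nearPoints C F Γ ε V).Finite ∧
      ((nearPoints C F Γ ε V).ncard : ℝ) ≤ A * (1 + hV V) ^ e

theorem valueAt_eq {n q : ℕ} {d : Fin q → ℕ} {K : Type} [Field K]
    (h : MvPolynomial (Index n d) ℤ) (F : Fin q → MvPolynomial (Fin (n + 1)) K) :
    valueAt h F = Pool.Agent.Q51.HG.sp d F h := rfl

theorem transversal_of {n q : ℕ} {d : Fin q → ℕ} {h : MvPolynomial (Index n d) ℤ}
    (hh : ∀ (L : Type) [Field L] (F : Fin q → MvPolynomial (Fin (n + 1)) L),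
      (∀ i, (F i).IsHomogeneous (d i)) → Pool.Agent.Q51.HG.sp d F h ≠ 0 →
      ∀ x : Fin (n + 1) → L, x ≠ 0 →
      LinearIndependent L (fun i : {i // eval x (F i) = 0} => fun k =>
        eval x (pderiv k (F i.1))))
    {K : Type} [Field K] (F : Fin q → MvPolynomial (Fin (n + 1)) K)
    (hF : ∀ i, (F i).IsHomogeneous (d i)) (hv : valueAt h F ≠ 0) : Transversal F := by
  intro Ω _ _ x hx
  have h1 := hh Ω (fun i => map (algebraMap K Ω) (F i)) (fun i => (hF i).map _) (by
    rw [Pool.Agent.Q51.HG.sp_map]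
    exact (map_ne_zero _).2 hv) x hx
  have h2 : ∀ i k, eval x (pderiv k (map (algebraMap K Ω) (F i))) = aeval x (pderiv k (F i)) := by
    intro i k
    rw [pderiv_map, eval_map, ← aeval_def]
  have h3 : ∀ i, eval x (map (algebraMap K Ω) (F i)) = aeval x (F i) := by
    intro i
    rw [eval_map, ← aeval_def]
  simp only [h2] at h1
  refine (h1.comp (fun i : {i // aeval x (F i) = 0} => ⟨i.1, by rw [h3]; exact i.2⟩) ?_)
  intro i i' hii
  simpa [Subtype.ext_iff] using hii

theorem result (n : ℕ) {q : ℕ} (d : Fin q → ℕ) (hd0 : ∀ i, 0 < d i) (C : Finset (Fin q))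
    (hC : ∃ b, b ∉ C) (hd : 2 * n + 1 ≤ ∑ i, d i + C.card) (r : ℕ) :
    ∃ (ε : ℝ) (h : MvPolynomial (Index n d) ℤ), 0 < ε ∧ h ≠ 0 ∧
      ∀ (K : Type) [Field K] [NumberField K] (F : Fin q → MvPolynomial (Fin (n + 1)) K),
        (∀ i, (F i).IsHomogeneous (d i)) → valueAt h F ≠ 0 →
        Transversal F ∧ HeightInequality r C F ∧ NearFinite r ε C F := by
  obtain ⟨b0, hb⟩ := hC
  have hgm := Pool.Agent.Q51.HG.noGm n d C hd
  obtain ⟨h2, h20, h2s⟩ := Pool.Agent.Q51.HG.gen_snc n d
  obtain ⟨h4, h40, h4s⟩ := Pool.Agent.Q51.HG.gen_noCurP d C hgm (r + q)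
  refine ⟨Pool.Agent.Y215.AF.eps (∑ i, d i + 1) (r + q), h2 * h4,
    Pool.Agent.Y215.AF.eps_pos _ _ (by omega),
    mul_ne_zero h20 h40, fun K _ _ F hF hv => ?_⟩
  rw [valueAt_eq, map_mul] at hv
  have hv2 := left_ne_zero_of_mul hv
  have hv4 := right_ne_zero_of_mul hv
  refine ⟨transversal_of h2s F hF hv2, ?_, ?_⟩
  · intro _ Γ hΓ
    obtain ⟨B, hB⟩ := Pool.Agent.Q51.HG.pair_heights C b0 hb F (hd0 b0) hF Γ hΓ (h4s K F hF hv4)
    exact ⟨B, fun u V hu hon => hB u V hu hon⟩
  · intro _ Γ hΓ
    obtain ⟨A, e, hA⟩ := Pool.Agent.Q51.HG.pair_near C b0 hb F (hd0 b0) hF Γ hΓ (h4s K F hF hv4)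
    exact ⟨A, e, fun V => hA V⟩

end Pool.Agent.Results.MP_26d9ad_nt.GeneralPairs
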