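import Pool.Agent.Q183.RS.Fin

/-!
# Integral points in sequences given by linear recurrences

Let `U` be the closed subvariety of affine `n`-space over a number field `k` given by the
polynomials in `FF`, which generate a prime ideal.

(1) Suppose that no nonconstant map from the punctured line to `U`, over an extension of `k`, passes
through a generic point of `U` (for instance `U` of log-general type).  For every `r` there is a
proper closed subset `Z = U ∩ {G = 0}` of `U`, defined over `k`, such that

* for all fields `K ⊇ k` with at most continuum many elements, every difference ring `B` of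
  sequences over `K` whose shift is surjective, and every sequence of points `x m` of `U` over `K`
  whose coordinates satisfy nontrivial linear recurrences of order at most `r` with coefficients in
  `B`, the coordinates are algebraic over `B` along the set of all `m` for which `x m` is outside
  `Z`;
* for all number fields `K ⊇ k`, all finite sets `S` of finite places of `K` and all sequences of
  `S`-integral points `x m` of `U` whose coordinates satisfy linear recurrences of order at most `r`
  with polynomial coefficients: if `x m` is outside `Z` from some index on, then there are `M > 0`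
  and vectors of polynomials `p 0, ..., p (M - 1)` over `K`, which are curves on `U`, such that
  `x m` is the value of `p (m mod M)` at `m` for all large `m`.

(2) If there are such maps, this fails: for some `r` and for every proper closed subset `G = 0`
there are a number field `K ⊇ k` and a sequence of points of `U` over `K`, all of them outside
`G = 0`, whose coordinates satisfy linear recurrences of order at most `r` with constant
coefficients, such that one of the coordinates is not an algebraic function of the index.
-/

set_option autoImplicit false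

namespace Pool.Agent.Results.MP_26d9ad_nt.RecurrentIntegralPoints

open MvPolynomial Filter Pool.Agent.Y215.AF Pool.Agent.Q183.RS Cardinal
open IsDedekindDomain NumberField

theorem result {k : Type} [Field k] [NumberField k] {n : ℕ} (FF : Set (MvPolynomial (Fin n) k))
    (hprime : (Ideal.span FF).IsPrime) (d : ℕ) (hd1 : 1 ≤ d) (hd : ∀ F ∈ FF, F.totalDegree ≤ d) :
    (¬ GmUniruled (Ideal.span FF) → ∀ r : ℕ,
      ∃ G : MvPolynomial (Fin n) k, G ∉ Ideal.span FF ∧
      (∀ (K : Type) [Field K] [Algebra k K], #K ≤ 𝔠 →
        ∀ B : Subalgebra K (ℕ → K), DiffRing B → Inversive B →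
        ∀ x : ℕ → Fin n → K, (∀ j, RecK B r (fun m => x m j)) →
        (∀ F ∈ FF, ∀ m, aeval (x m) F = 0) →
        ∀ j, AlgOnK B {m | aeval (x m) G ≠ 0} (fun m => x m j)) ∧
      (∀ (K : Type) [Field K] [NumberField K] [Algebra k K]
        (S : Set (HeightOneSpectrum (𝓞 K))), S.Finite → ∀ x : ℕ → Fin n → K,
        (∀ m j, x m j ∈ S.integer K) → (∀ j, PRecO r (fun m => x m j)) →
        (∀ F ∈ FF, ∀ m, aeval (x m) F = 0) → (∀ᶠ m in atTop, aeval (x m) G ≠ 0) →
        ∃ (M : ℕ) (p : ℕ → Fin n → Polynomial K), 0 < M ∧
          (∀ a < M, ∀ F ∈ FF, aeval (p a) F = 0) ∧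
          ∀ᶠ m : ℕ in atTop, ∀ j, x m j = (p (m % M) j).eval (m : K))) ∧
    (GmUniruled (Ideal.span FF) → ∃ r : ℕ,
      ∀ G : MvPolynomial (Fin n) k, G ∉ Ideal.span FF →
      ∃ (K : Type) (_ : Field K) (_ : NumberField K) (_ : Algebra k K) (x : ℕ → Fin n → K),
        (∀ j, CRecO r (fun m => x m j)) ∧ (∀ F ∈ FF, ∀ m, aeval (x m) F = 0) ∧
        (∀ m, aeval (x m) G ≠ 0) ∧ ∃ j, ¬ AlgIndex Set.univ (fun m => x m j) (fun _ => 1)) := by
  refine ⟨fun hnu r => ?_, fun hu => conv_aff FF hu⟩
  obtain ⟨G, hG2, h1, h2⟩ := aff_fin FF hprime hnu d hd1 hd r
  refine ⟨G, hG2, ?_, h2⟩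
  intro K _ _ hK B hB hinv x hx hF j
  obtain ⟨t, ht⟩ := h1 K hK B hB x hx fun F hF' => Eventually.of_forall (hF F hF')
  exact algOn_iff_pair.2 (AlgPairK.unshift (A := {m | aeval (x m) G ≠ 0}) (f := fun m => x m j)
    (g := fun _ => 1) hinv (algOn_iff_pair.1 (ht j)))

end Pool.Agent.Results.MP_26d9ad_nt.RecurrentIntegralPoints
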