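import Mathlib
import Pool.Agent.Q256.UP.InC

set_option autoImplicit false

/-!
# Almost all open varieties of log general type with an integral point of moderate size have
exactly one

Let `F = (F_1, …, F_r)` run through the systems of integral forms of degrees `d_i` in the variables
`y_0, …, y_n` with coefficients of absolute value at most `H`. Let `J` be a set of `s` of the
variables and let `A_i` be finite sets of integers. The primitive vectors `y` with `y_j = ± 1` for
`j ∈ J` and `F_i(y) ∈ A_i` are integral points of the complement of the hyperplanes `y_j = 0`,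
`j ∈ J`, and of the hypersurfaces `F_i = 0` with `0 ∉ A_i` in the complete intersection of the
`F_i = 0` with `A_i = {0}`. This open variety is of log general type (if the boundary has normal
crossings) for `D + s ≥ n + 2`, `D = ∑ d_i`. For `J = {0}` and `A_i = {0}` these are the integral
points of the affine varieties in affine `n`-space. We show without any hypothesis that among the
systems which have an integral point of size at most `H ^ (D / (n + 1 - s) - η)` all but a
proportion `O(H ^ (-δ))` have exactly one.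
-/

namespace Pool.Agent.Results.MP_26d9ad_nt.UniqueIntegralPoint

open MvPolynomial

/-- The systems of `r` integral forms of degrees `d_i` in `n + 1` variables all of whose
coefficients have absolute value at most `H`. -/
def Systems {r : ℕ} (n : ℕ) (d : Fin r → ℕ) (H : ℕ) :
    Set (Fin r → MvPolynomial (Fin (n + 1)) ℤ) :=
  {F | ∀ i, (F i).IsHomogeneous (d i) ∧ ∀ α, |(F i).coeff α| ≤ H}

/-- The primitive integral vectors `y` of size `max |y_k| ≤ T` with `y_j = ± 1` for `j ∈ J` and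
`F_i(y) ∈ A_i` for all `i`. -/
def Points {n r : ℕ} (J : Finset (Fin (n + 1))) (A : Fin r → Finset ℤ)
    (F : Fin r → MvPolynomial (Fin (n + 1)) ℤ) (T : ℕ) : Set (Fin (n + 1) → ℤ) :=
  {y | Finset.univ.gcd y = 1 ∧ (∀ k, |y k| ≤ T) ∧ (∀ j ∈ J, |y j| = 1) ∧
    ∀ i, eval y (F i) ∈ A i}

open Pool.Agent.Q256.UP in
theorem prim_iff {n : ℕ} (y : Fin (n + 1) → ℤ) : Finset.univ.gcd y = 1 ↔ IsPrim y := by
  constructor
  · intro h
    have h1 : Ideal.span (Set.range y) = ⊤ := by
      have h2 : Ideal.span (Set.range y) = Ideal.span {Finset.univ.gcd y} := by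
        apply le_antisymm
        · rw [Ideal.span_le]
          rintro _ ⟨k, rfl⟩
          exact Ideal.mem_span_singleton.2 (Finset.gcd_dvd (Finset.mem_univ k))
        · obtain ⟨g, hg⟩ := (IsPrincipalIdealRing.principal (Ideal.span (Set.range y))).principal
          rw [hg]
          rw [Ideal.submodule_span_eq, Ideal.span_singleton_le_span_singleton]
          apply Finset.dvd_gcd
          intro k _
          have : y k ∈ Ideal.span (Set.range y) := Ideal.subset_span ⟨k, rfl⟩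
          rw [hg] at this
          exact Ideal.mem_span_singleton.1 this
      rw [h2, h, Ideal.span_singleton_one]
    exact Ideal.mem_span_range_iff_exists_fun.1 ((Ideal.eq_top_iff_one _).1 h1)
  · rintro ⟨a, ha⟩
    have h1 : Finset.univ.gcd y ∣ 1 := by
      rw [← ha]
      exact Finset.dvd_sum (fun k hk => (Finset.gcd_dvd hk).mul_left _)
    have h2 : normalize (Finset.univ.gcd y) = Finset.univ.gcd y := Finset.normalize_gcd
    rw [← h2]
    exact normalize_eq_one.2 (isUnit_of_dvd_one h1)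

open Pool.Agent.Q256.UP in
theorem points_eq {n r : ℕ} (J : Finset (Fin (n + 1))) (A : Fin r → Finset ℤ)
    (F : Fin r → MvPolynomial (Fin (n + 1)) ℤ) (T : ℕ) : Points J A F T = IPt J A F T := by
  ext y
  unfold Points IPt
  simp only [Set.mem_setOf_eq]
  rw [prim_iff]

open Pool.Agent.Q256.UP in
theorem tail_le {n r : ℕ} (J : Finset (Fin (n + 1))) (A : Fin r → Finset ℤ) (d : Fin r → ℕ)
    (H R T : ℕ) :
    Nat.card {F | F ∈ Systems n d H ∧ ∃ y ∈ Points J A F T, ∃ k, (R : ℤ) < |y k|} ≤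
      Nat.card (IS1 J A d H R T) := by
  simp only [Nat.card_coe_set_eq]
  apply Set.ncard_le_ncard _ ((finite_sys n d H).subset (fun F hF => hF.1))
  rintro F ⟨hF, y, hy, hR⟩
  rw [points_eq] at hy
  exact ⟨hF, y, hy, hR⟩

open Pool.Agent.Q256.UP in
theorem two_le {n r : ℕ} (J : Finset (Fin (n + 1))) (A : Fin r → Finset ℤ) (d : Fin r → ℕ)
    (H T : ℕ) :
    Nat.card {F | F ∈ Systems n d H ∧ ∃ y ∈ Points J A F T, ∃ z ∈ Points J A F T,
      z ≠ y ∧ z ≠ -y} ≤ Nat.card (IS2 J A d H T) := by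
  simp only [Nat.card_coe_set_eq]
  apply Set.ncard_le_ncard _ ((finite_sys n d H).subset (fun F hF => hF.1))
  rintro F ⟨hF, y, hy, z, hz, hne1, hne2⟩
  rw [points_eq] at hy hz
  refine ⟨hF, y, hy, z, hz, ?_⟩
  by_contra hcon
  push Not at hcon
  obtain ⟨a, ha⟩ := hy.1
  obtain ⟨b, hb⟩ := hz.1
  have h1 : ∀ j, z j = (∑ k, a k * z k) * y j := by
    intro j
    rw [Finset.sum_mul]
    calc z j = (∑ k, a k * y k) * z j := by rw [ha, one_mul]
      _ = ∑ k, a k * z k * y j := by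
        rw [Finset.sum_mul]
        refine Finset.sum_congr rfl (fun k _ => ?_)
        have := hcon k j
        linear_combination a k * this
  have h2 : (∑ k, b k * y k) * (∑ k, a k * z k) = 1 := by
    rw [Finset.sum_mul]
    calc ∑ k, b k * y k * (∑ k, a k * z k) = ∑ k, b k * z k := by
          refine Finset.sum_congr rfl (fun k _ => ?_)
          rw [h1 k]; ring
      _ = 1 := hb
  rcases Int.isUnit_iff.1 (IsUnit.of_mul_eq_one _ (by rw [mul_comm]; exact h2)) with h3 | h3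
  · apply hne1
    funext j
    rw [h1 j, h3, one_mul]
  · apply hne2
    funext j
    rw [h1 j, h3, Pi.neg_apply]; ring

open Pool.Agent.Q256.UP in
theorem one_eq {n r : ℕ} (J : Finset (Fin (n + 1))) (A : Fin r → Finset ℤ) (d : Fin r → ℕ)
    (H T : ℕ) : {F | F ∈ Systems n d H ∧ (Points J A F T).Nonempty} =
      {F | F ∈ SysBox n d H ∧ (IPt J A F T).Nonempty} := by
  ext F
  simp only [Set.mem_setOf_eq]
  rw [points_eq]
  exact Iff.rfl

/-- Let `d_1, …, d_r ≥ 1`, `D = d_1 + … + d_r`, let `J` be a set of `s ≤ n` of the indices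
`0, …, n` with `D + s ≥ n + 2` and let `A_1, …, A_r` be nonempty finite sets of integers; the open
varieties in question are supposed not to be projective: `s ≥ 1` or `0 ∉ A_i` for some `i`.
Let `N_i = binom(n + d_i, n)` and let `F = (F_1, …, F_r)` run through the systems of integral
forms of degrees `d_i` in `n + 1` variables with coefficients of absolute value at most `H`.
Integral points are the primitive vectors `y` with `y_j = ± 1` for `j ∈ J` and `F_i(y) ∈ A_i`, up
to sign, of size `max |y_k|`.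
Part 1. For all sufficiently large `H` and all `R` and `T` at most
`C H^(∑ (N_i - 1)) ((R+1)^(-(D+s-n-1)) + T^(n+1-s) H^(-D))` systems have an integral point of size
in `(R, T]`, and at most
`C H^(∑ (N_i - 1)) (H^(-r(D+s-n-1)/(D+n+1-s)) + T^(n+1-s) H^(-D))` have two different integral
points of size at most `T`, whereas at least `C^(-1) H^(∑ (N_i - 1))` have an integral point of
size at most `T`, if `T ≥ 1`.
Part 2. Let `η > 0` and `1 ≤ T ≤ H^(D/(n+1-s)-η)`. Among the systems with an integral point of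
size at most `T` all but a proportion `C H^(-δ)` have exactly one, and all but a proportion
`C (R+1)^(-(D+s-n-1)) + C H^(-δ)` have no integral point of size in `(R, T]`. -/
theorem result (n r : ℕ) (J : Finset (Fin (n + 1))) (A : Fin r → Finset ℤ) (d : Fin r → ℕ)
    (hd : ∀ i, 1 ≤ d i) (hJ : J.card ≤ n) (hD : n + 2 ≤ ∑ i, d i + J.card)
    (hA : ∀ i, (A i).Nonempty) (hU : J.Nonempty ∨ ∃ i, 0 ∉ A i) :
    (∃ (C : ℝ) (H₀ : ℕ), 0 < C ∧ 1 ≤ H₀ ∧ ∀ H : ℕ, H₀ ≤ H →
      (∀ R T : ℕ,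
        (Nat.card {F | F ∈ Systems n d H ∧ ∃ y ∈ Points J A F T, ∃ k, (R : ℤ) < |y k|} : ℝ) ≤
        C * (H : ℝ) ^ (∑ i, ((n + d i).choose n - 1)) *
          (1 / ((R : ℝ) + 1) ^ (∑ i, d i + J.card - n - 1) +
            (T : ℝ) ^ (n + 1 - J.card) / (H : ℝ) ^ (∑ i, d i))) ∧
      (∀ T : ℕ,
        (Nat.card {F | F ∈ Systems n d H ∧ ∃ y ∈ Points J A F T, ∃ z ∈ Points J A F T,
          z ≠ y ∧ z ≠ -y} : ℝ) ≤
        C * (H : ℝ) ^ (∑ i, ((n + d i).choose n - 1)) *
          ((H : ℝ) ^ (-((r : ℝ) * (((∑ i, d i : ℕ) : ℝ) + J.card - n - 1) /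
              (((∑ i, d i : ℕ) : ℝ) + n + 1 - J.card))) +
            (T : ℝ) ^ (n + 1 - J.card) / (H : ℝ) ^ (∑ i, d i))) ∧
      (∀ T : ℕ, 1 ≤ T → (H : ℝ) ^ (∑ i, ((n + d i).choose n - 1)) ≤
        C * Nat.card {F | F ∈ Systems n d H ∧ (Points J A F T).Nonempty})) ∧
    (∀ η : ℝ, 0 < η → ∃ (C δ : ℝ) (H₀ : ℕ), 0 < C ∧ 0 < δ ∧ ∀ H T : ℕ, H₀ ≤ H → 1 ≤ T →
      (T : ℝ) ≤ (H : ℝ) ^ (((∑ i, d i : ℕ) : ℝ) / ((n : ℝ) + 1 - J.card) - η) →
      (Nat.card {F | F ∈ Systems n d H ∧ ∃ y ∈ Points J A F T, ∃ z ∈ Points J A F T,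
          z ≠ y ∧ z ≠ -y} : ℝ) ≤
        C * (H : ℝ) ^ (-δ) * Nat.card {F | F ∈ Systems n d H ∧ (Points J A F T).Nonempty} ∧
      ∀ R : ℕ,
        (Nat.card {F | F ∈ Systems n d H ∧ ∃ y ∈ Points J A F T, ∃ k, (R : ℤ) < |y k|} : ℝ) ≤
        C * (1 / ((R : ℝ) + 1) ^ (∑ i, d i + J.card - n - 1) + (H : ℝ) ^ (-δ)) *
          Nat.card {F | F ∈ Systems n d H ∧ (Points J A F T).Nonempty}) := by
  have _ := hU
  choose a ha using hA
  have hK1 := Pool.Agent.Q256.UP.K1_nonneg (n := n) A d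
  have hK2 := Pool.Agent.Q256.UP.K2_nonneg (n := n) A d
  set c0 : ℝ := ∏ i, (1 / (2 * ((n + d i).choose n : ℕ) : ℝ)) ^ ((n + d i).choose n - 1) with hc0
  have hc0pos : 0 < c0 := by
    apply Finset.prod_pos
    intro i _
    have : 0 < (n + d i).choose n := Pool.Agent.Q256.UP.one_le_N n (d i)
    positivity
  set P1 : ℝ := 2 * ((n + 1) * 12 ^ (n + 1)) * Pool.Agent.Q256.UP.K1 (n := n) A d with hP1
  have hP1n : 0 ≤ P1 := by positivity
  set C0 : ℝ := P1 + Pool.Agent.Q256.UP.K2 (n := n) A d + c0⁻¹ with hC0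
  have hC0pos : 0 < C0 := by
    have : 0 < c0⁻¹ := inv_pos.2 hc0pos
    rw [hC0]; linarith
  set H₀ : ℕ := 1 + ∑ i, 2 * (a i).natAbs with hH₀
  set D : ℕ := ∑ i, d i with hDdef
  set M : ℕ := ∑ i, ((n + d i).choose n - 1) with hM
  have hpart : ∀ H : ℕ, H₀ ≤ H →
      (∀ R T : ℕ,
        (Nat.card {F | F ∈ Systems n d H ∧ ∃ y ∈ Points J A F T, ∃ k, (R : ℤ) < |y k|} : ℝ) ≤
        C0 * (H : ℝ) ^ M *
          (1 / ((R : ℝ) + 1) ^ (D + J.card - n - 1) +
            (T : ℝ) ^ (n + 1 - J.card) / (H : ℝ) ^ D)) ∧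
      (∀ T : ℕ,
        (Nat.card {F | F ∈ Systems n d H ∧ ∃ y ∈ Points J A F T, ∃ z ∈ Points J A F T,
          z ≠ y ∧ z ≠ -y} : ℝ) ≤
        C0 * (H : ℝ) ^ M *
          ((H : ℝ) ^ (-((r : ℝ) * ((D : ℝ) + J.card - n - 1) / ((D : ℝ) + n + 1 - J.card))) +
            (T : ℝ) ^ (n + 1 - J.card) / (H : ℝ) ^ D)) ∧
      (∀ T : ℕ, 1 ≤ T → (H : ℝ) ^ M ≤
        C0 * Nat.card {F | F ∈ Systems n d H ∧ (Points J A F T).Nonempty}) := by
    intro H hHH
    have hH : 1 ≤ H := by omega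
    have hH0 : (0 : ℝ) < H := by exact_mod_cast hH
    have hc0i : 0 < c0⁻¹ := inv_pos.2 hc0pos
    have hJr : (J.card : ℝ) ≤ n := by exact_mod_cast hJ
    refine ⟨fun R T => ?_, fun T => ?_, fun T hT => ?_⟩
    · have h3 : (Nat.card {F | F ∈ Systems n d H ∧ ∃ y ∈ Points J A F T,
          ∃ k, (R : ℤ) < |y k|} : ℝ) ≤
          Nat.card (Pool.Agent.Q256.UP.IS1 J A d H R T) := by exact_mod_cast tail_le J A d H R T
      refine (h3.trans (Pool.Agent.Q256.UP.tail_int J A d hJ hD H R T hH)).trans ?_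
      rw [one_div, div_eq_mul_inv]
      apply mul_le_mul_of_nonneg_right _ (by positivity)
      apply mul_le_mul_of_nonneg_right _ (by positivity)
      linarith
    · have h3 : (Nat.card {F | F ∈ Systems n d H ∧ ∃ y ∈ Points J A F T, ∃ z ∈ Points J A F T,
          z ≠ y ∧ z ≠ -y} : ℝ) ≤
          Nat.card (Pool.Agent.Q256.UP.IS2 J A d H T) := by exact_mod_cast two_le J A d H T
      refine (h3.trans (Pool.Agent.Q256.UP.two_int J A d hd hJ hD H T hH)).trans ?_
      rw [div_eq_mul_inv ((T : ℝ) ^ (n + 1 - J.card))]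
      apply mul_le_mul_of_nonneg_right _ (by positivity)
      apply mul_le_mul_of_nonneg_right _ (by positivity)
      linarith
    · have h4 := Pool.Agent.Q256.UP.lower_int J A d a ha H T hT (fun i => by
        have h5 : 2 * (a i).natAbs ≤ ∑ i, 2 * (a i).natAbs :=
          Finset.single_le_sum (f := fun i => 2 * (a i).natAbs) (fun _ _ => Nat.zero_le _)
            (Finset.mem_univ i)
        rw [Int.abs_eq_natAbs]
        have h6 : 2 * (a i).natAbs ≤ H := by omega
        exact_mod_cast h6)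
      rw [← one_eq] at h4
      set W : ℝ := (Nat.card {F | F ∈ Systems n d H ∧ (Points J A F T).Nonempty} : ℝ) with hW
      have hW0 : 0 ≤ W := by positivity
      calc (H : ℝ) ^ M = c0⁻¹ * (c0 * (H : ℝ) ^ M) := by
            rw [← mul_assoc, inv_mul_cancel₀ hc0pos.ne', one_mul]
        _ ≤ c0⁻¹ * W := mul_le_mul_of_nonneg_left h4 hc0i.le
        _ ≤ C0 * W := by
            apply mul_le_mul_of_nonneg_right _ hW0
            linarith
  refine ⟨⟨C0, H₀, hC0pos, by omega, hpart⟩, fun η hη => ?_⟩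
  have hr : 0 < r := by
    rcases Nat.eq_zero_or_pos r with h | h
    · subst h
      have : D = 0 := by rw [hDdef]; simp
      omega
    · exact h
  have hDr : (n : ℝ) + 2 ≤ (D : ℝ) + J.card := by exact_mod_cast hD
  have hJr : (J.card : ℝ) ≤ n := by exact_mod_cast hJ
  have hD0 : (0 : ℝ) ≤ D := Nat.cast_nonneg _
  have hrr : (0 : ℝ) < r := by exact_mod_cast hr
  have hκpos : 0 < (r : ℝ) * ((D : ℝ) + J.card - n - 1) / ((D : ℝ) + n + 1 - J.card) := by
    apply div_pos (mul_pos hrr (by linarith)) (by linarith)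
  refine ⟨2 * C0 ^ 2, min ((r : ℝ) * ((D : ℝ) + J.card - n - 1) / ((D : ℝ) + n + 1 - J.card)) η,
    H₀, by positivity, lt_min hκpos hη, ?_⟩
  intro H T hHH hT1 hT
  have hH : 1 ≤ H := by omega
  have hH0 : (0 : ℝ) < H := by exact_mod_cast hH
  have hH1 : (1 : ℝ) ≤ H := by exact_mod_cast hH
  obtain ⟨h1, h2, h3⟩ := hpart H hHH
  set δ : ℝ := min ((r : ℝ) * ((D : ℝ) + J.card - n - 1) / ((D : ℝ) + n + 1 - J.card)) η with hδ
  set W : ℝ := (Nat.card {F | F ∈ Systems n d H ∧ (Points J A F T).Nonempty} : ℝ) with hW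
  have hS : (H : ℝ) ^ M ≤ C0 * W := h3 T hT1
  have hW0 : 0 ≤ W := by positivity
  have hTb : (T : ℝ) ^ (n + 1 - J.card) / (H : ℝ) ^ D ≤ (H : ℝ) ^ (-δ) := by
    have hs0 : (0 : ℝ) < (n : ℝ) + 1 - J.card := by linarith
    calc (T : ℝ) ^ (n + 1 - J.card) / (H : ℝ) ^ D ≤
          ((H : ℝ) ^ ((D : ℝ) / ((n : ℝ) + 1 - J.card) - η)) ^ (n + 1 - J.card) /
          (H : ℝ) ^ D := by
          apply div_le_div_of_nonneg_right _ (by positivity)
          exact pow_le_pow_left₀ (Nat.cast_nonneg _) hT _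
      _ = (H : ℝ) ^ (-(η * ((n : ℝ) + 1 - J.card))) := by
          rw [← Real.rpow_natCast ((H : ℝ) ^ ((D : ℝ) / ((n : ℝ) + 1 - J.card) - η))
            (n + 1 - J.card), ← Real.rpow_mul hH0.le, ← Real.rpow_natCast (H : ℝ) D,
            ← Real.rpow_sub hH0]
          congr 1
          rw [Nat.cast_sub (by omega)]
          push_cast
          have := hs0.ne'
          field_simp
          ring
      _ ≤ _ := by
          apply Real.rpow_le_rpow_of_exponent_le hH1
          have h5 := min_le_right ((r : ℝ) * ((D : ℝ) + J.card - n - 1) /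
            ((D : ℝ) + n + 1 - J.card)) η
          nlinarith
  have hκ : (H : ℝ) ^ (-((r : ℝ) * ((D : ℝ) + J.card - n - 1) / ((D : ℝ) + n + 1 - J.card))) ≤
      (H : ℝ) ^ (-δ) := by
    apply Real.rpow_le_rpow_of_exponent_le hH1
    have := min_le_left ((r : ℝ) * ((D : ℝ) + J.card - n - 1) / ((D : ℝ) + n + 1 - J.card)) η
    linarith
  refine ⟨(h2 T).trans ?_, fun R => (h1 R T).trans ?_⟩
  · have hp : (0 : ℝ) ≤ (H : ℝ) ^
        (-((r : ℝ) * ((D : ℝ) + J.card - n - 1) / ((D : ℝ) + n + 1 - J.card))) := by positivity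
    have hq : (0 : ℝ) ≤ (T : ℝ) ^ (n + 1 - J.card) / (H : ℝ) ^ D := by positivity
    calc C0 * (H : ℝ) ^ M *
          ((H : ℝ) ^ (-((r : ℝ) * ((D : ℝ) + J.card - n - 1) / ((D : ℝ) + n + 1 - J.card))) +
          (T : ℝ) ^ (n + 1 - J.card) / (H : ℝ) ^ D) ≤
          C0 * (C0 * W) * ((H : ℝ) ^ (-δ) + (H : ℝ) ^ (-δ)) := by
          apply mul_le_mul (mul_le_mul_of_nonneg_left hS hC0pos.le) (add_le_add hκ hTb)
            (add_nonneg hp hq) (by positivity)
      _ = 2 * C0 ^ 2 * (H : ℝ) ^ (-δ) * W := by ring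
  · have hR : (0 : ℝ) ≤ 1 / ((R : ℝ) + 1) ^ (D + J.card - n - 1) := by positivity
    have hHδ : (0 : ℝ) ≤ (H : ℝ) ^ (-δ) := by positivity
    calc C0 * (H : ℝ) ^ M * (1 / ((R : ℝ) + 1) ^ (D + J.card - n - 1) +
          (T : ℝ) ^ (n + 1 - J.card) / (H : ℝ) ^ D) ≤
          C0 * (C0 * W) * (1 / ((R : ℝ) + 1) ^ (D + J.card - n - 1) + (H : ℝ) ^ (-δ)) := by
          apply mul_le_mul (mul_le_mul_of_nonneg_left hS hC0pos.le) (by linarith)
            (by positivity) (by positivity)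
      _ ≤ 2 * (C0 * (C0 * W) * (1 / ((R : ℝ) + 1) ^ (D + J.card - n - 1) + (H : ℝ) ^ (-δ))) := by
          have : 0 ≤ C0 * (C0 * W) * (1 / ((R : ℝ) + 1) ^ (D + J.card - n - 1) +
            (H : ℝ) ^ (-δ)) := by positivity
          linarith
      _ = _ := by ring

end Pool.Agent.Results.MP_26d9ad_nt.UniqueIntegralPoint
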